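import Pool.Agent.H420.DW.Fin

set_option autoImplicit false

open Filter Topology

/-!
# The depth of the depth-weighted tree with weight `exp (c k / log (k + 2))`

For every `c > 0` the depth of the depth-weighted tree `T_N` with weight function
`f_c (k) = exp (c k / log (k + 2))` is `N ^ (β + o(1))` with high probability, where
`β = 2 c / (2 c + 1)`.
-/

namespace Pool.Agent.Results.MP_bb6489_pr.DepthExponent

open Pool.Agent.H420.DW

/-- For every `c > 0` the number `β = 2c/(2c+1)` lies in `(0,1)` and for every `ε > 0` the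
probability of the event `N ^ (β - ε) ≤ d (T_N) ≤ N ^ (β + ε)` tends to `1` as `N = n + 1` tends to
infinity; here `law (weight c) _ n` is the law of the tree `T_(n+1)`. -/
theorem result (c : ℝ) (hc : 0 < c) :
    0 < 2 * c / (2 * c + 1) ∧ 2 * c / (2 * c + 1) < 1 ∧ ∀ ε : ℝ, 0 < ε →
      Tendsto (fun n : ℕ => (law (weight c) (weight_pos c) n).toOuterMeasure
        {t | ((n : ℝ) + 1) ^ (2 * c / (2 * c + 1) - ε) ≤ height t ∧
          (height t : ℝ) ≤ ((n : ℝ) + 1) ^ (2 * c / (2 * c + 1) + ε)}) atTop (𝓝 1) := by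
  have hβ0 : 0 < 2 * c / (2 * c + 1) := by positivity
  refine ⟨hβ0, by rw [div_lt_one (by positivity)]; linarith, fun ε hε => ?_⟩
  set β : ℝ := 2 * c / (2 * c + 1) with hβ
  set δ : ℝ := min ε (β / 2) with hδ
  have hδ0 : 0 < δ := lt_min hε (by positivity)
  have hδε : δ ≤ ε := min_le_left _ _
  have hδβ : δ ≤ β / 2 := min_le_right _ _
  have h1 := upper_tail hc (γ := β + δ) (by linarith)
  have h2 := lower_tail hc (γ := β - δ) (by linarith) (by linarith)
  have hw := weight_pos c
  set A : ℕ → Set (List ℕ) := fun n => {t | ((n : ℝ) + 1) ^ (β - ε) ≤ height t ∧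
    (height t : ℝ) ≤ ((n : ℝ) + 1) ^ (β + ε)} with hA
  set B : ℕ → Set (List ℕ) := fun n => {t | ((n : ℝ) + 1) ^ (β + δ) < height t} with hB
  set D : ℕ → Set (List ℕ) := fun n => {t | (height t : ℝ) < ((n : ℝ) + 1) ^ (β - δ)} with hD
  have hle : ∀ n, EV (weight c) ((A n).indicator 1) n [] ≤ 1 := by
    intro n
    refine (EV_mono hw (g' := fun _ => 1) (fun t => ?_) n []).trans (EV_one hw n []).le
    exact Set.indicator_le_self' (fun _ _ => zero_le_one) t
  have hge : ∀ n, 1 - (EV (weight c) ((B n).indicator 1) n [] +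
      EV (weight c) ((D n).indicator 1) n []) ≤ EV (weight c) ((A n).indicator 1) n [] := by
    intro n
    have hN1 : (1 : ℝ) ≤ (n : ℝ) + 1 := by
      have : (0 : ℝ) ≤ n := Nat.cast_nonneg n
      linarith
    have h3 : (1 : ℝ) ≤ EV (weight c) (fun s => (A n).indicator 1 s +
        ((B n).indicator 1 s + (D n).indicator 1 s)) n [] := by
      rw [← EV_one hw n []]
      refine EV_mono hw (fun t => ?_) n []
      have ha : (0 : ℝ) ≤ (A n).indicator 1 t := Set.indicator_nonneg (fun _ _ => zero_le_one) t
      have hb : (0 : ℝ) ≤ (B n).indicator 1 t := Set.indicator_nonneg (fun _ _ => zero_le_one) t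
      have hd : (0 : ℝ) ≤ (D n).indicator 1 t := Set.indicator_nonneg (fun _ _ => zero_le_one) t
      by_cases hb' : t ∈ B n
      · have : (B n).indicator (1 : List ℕ → ℝ) t = 1 := by rw [Set.indicator_of_mem hb']; rfl
        linarith
      · by_cases hd' : t ∈ D n
        · have : (D n).indicator (1 : List ℕ → ℝ) t = 1 := by rw [Set.indicator_of_mem hd']; rfl
          linarith
        · have ha' : t ∈ A n := by
            rw [hB, Set.mem_ofPred_eq, not_lt] at hb'
            rw [hD, Set.mem_ofPred_eq, not_lt] at hd'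
            refine ⟨le_trans ?_ hd', hb'.trans ?_⟩
            · exact Real.rpow_le_rpow_of_exponent_le hN1 (by linarith)
            · exact Real.rpow_le_rpow_of_exponent_le hN1 (by linarith)
          have : (A n).indicator (1 : List ℕ → ℝ) t = 1 := by rw [Set.indicator_of_mem ha']; rfl
          linarith
    rw [EV_add, EV_add] at h3
    linarith
  have h4 : Tendsto (fun n : ℕ => EV (weight c) ((A n).indicator 1) n []) atTop (𝓝 1) := by
    refine tendsto_of_tendsto_of_tendsto_of_le_of_le ?_ tendsto_const_nhds hge hle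
    have := (h1.add h2).const_sub 1
    simpa using this
  have h5 := (ENNReal.continuous_ofReal.tendsto 1).comp h4
  rw [ENNReal.ofReal_one] at h5
  refine h5.congr fun n => ?_
  exact (law_toOuterMeasure hw (A n) n).symm

end Pool.Agent.Results.MP_bb6489_pr.DepthExponent
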